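import Pool.Agent.P.MP_77d020_co.Design

namespace Pool.Agent.Results.MP_77d020_co.AllPlanes

/-- Agrawal's conjecture for every finite projective plane (Desarguesian or not) of order at
least three, and for the complementary design of every such plane: a symmetric design with
`k - lam > 2` in which two points lie on exactly one block (`lam = 1`), or in which two points
are missed by exactly one block (`v - 2 k + lam = 1`), has the required arrangement for every
choice of the block `B0`. -/
theorem result :
    ∀ (P : Type) [Fintype P] [DecidableEq P] (Blk : Finset (Finset P)) (k lam : ℕ),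
      Blk.card = Fintype.card P →
      (∀ B ∈ Blk, B.card = k) →
      (∀ x y : P, x ≠ y → (Blk.filter (fun B => x ∈ B ∧ y ∈ B)).card = lam) →
      lam + 2 < k →
      (lam = 1 ∨ Fintype.card P + lam = 2 * k + 1) →
      ∀ B0 ∈ Blk, ∃ f : P → P → Finset P,
        (∀ j : P, j ∉ B0 →
          B0.image (fun i => f i j) = Blk.filter (fun B => j ∈ B)) ∧
        (∀ i ∈ B0,
          (Finset.univ.filter (fun j => j ∉ B0)).image (fun j => f i j)
            = Blk.filter (fun B => B ≠ B0 ∧ i ∉ B)) :=
  fun _ _ _ _ _ _ hb hk hl h3 h1 _ h0 => Pool.Agent.P.MP_77d020_co.planes hb hk hl h3 h1 h0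

end Pool.Agent.Results.MP_77d020_co.AllPlanes
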