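import Pool.Agent.P.MP_77d020_co.L.All

namespace Pool.Agent.Results.MP_77d020_co.LargeOrder

/-- Agrawal's conjecture for all but finitely many symmetric designs: there is an absolute
constant `v0` such that every symmetric design with `k - lam > 2` on at least `v0` points has the
required arrangement for every choice of the block `B0`. -/
theorem result :
    ∃ v0 : ℕ, ∀ (P : Type) [Fintype P] [DecidableEq P] (Blk : Finset (Finset P)) (k lam : ℕ),
      Blk.card = Fintype.card P →
      (∀ B ∈ Blk, B.card = k) →
      (∀ x y : P, x ≠ y → (Blk.filter (fun B => x ∈ B ∧ y ∈ B)).card = lam) →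
      lam + 2 < k →
      v0 ≤ Fintype.card P →
      ∀ B0 ∈ Blk, ∃ f : P → P → Finset P,
        (∀ j : P, j ∉ B0 →
          B0.image (fun i => f i j) = Blk.filter (fun B => j ∈ B)) ∧
        (∀ i ∈ B0,
          (Finset.univ.filter (fun j => j ∉ B0)).image (fun j => f i j)
            = Blk.filter (fun B => B ≠ B0 ∧ i ∉ B)) :=
  Pool.Agent.P.MP_77d020_co.L.largeOrder

end Pool.Agent.Results.MP_77d020_co.LargeOrder
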