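import Pool.Agent.P.MP_77d020_co.Proj

namespace Pool.Agent.Results.MP_77d020_co.ProjectiveSpaces

/-- Agrawal's conjecture for the design of points and hyperplanes of every finite projective
space `PG(d, q)` other than the Fano plane, and for its complementary design: the points are the
points of the projective space of `V`, the blocks are the zero sets of the nonzero linear forms
(first alternative) or their complements (second alternative), and `B0` is any block. -/
theorem result (F V : Type) [Field F] [Finite F] [AddCommGroup V] [Module F V]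
    [FiniteDimensional F V] [Fintype (Projectivization F V)] [DecidableEq (Projectivization F V)]
    (hq : ¬ (Nat.card F = 2 ∧ Module.finrank F V = 3))
    (Blk : Finset (Finset (Projectivization F V)))
    (hBlk : (∀ B, B ∈ Blk ↔ ∃ φ : Module.Dual F V, φ ≠ 0 ∧ ∀ x, x ∈ B ↔ φ x.rep = 0) ∨
      (∀ B, B ∈ Blk ↔ ∃ φ : Module.Dual F V, φ ≠ 0 ∧ ∀ x, x ∈ B ↔ φ x.rep ≠ 0)) :
    ∀ B0 ∈ Blk,
      ∃ f : Projectivization F V → Projectivization F V → Finset (Projectivization F V),
        (∀ j, j ∉ B0 → B0.image (fun i => f i j) = Blk.filter (fun B => j ∈ B)) ∧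
        (∀ i ∈ B0,
          (Finset.univ.filter (fun j => j ∉ B0)).image (fun j => f i j)
            = Blk.filter (fun B => B ≠ B0 ∧ i ∉ B)) :=
  fun _ h0 => Pool.Agent.P.MP_77d020_co.proj_spaces hq hBlk h0

end Pool.Agent.Results.MP_77d020_co.ProjectiveSpaces
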